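import Pool.Agent.Y920.JB.Stm

set_option autoImplicit false

/-!
# JB-UNI (helper542 for helper920, job 11705): the uniform measure on a product of finite sets
-/

open Topology Filter MeasureTheory Finset

namespace Pool.Agent.Y542.JB

open Pool.Agent.Y920.JB

lemma upd {a : ℕ → ℕ} (n : ℕ) (w : ∀ n, Fin (a n + 1)) (j : Fin (a n + 1)) :
    w + Pi.single n j = Function.update w n (w n + j) := by
  funext i
  by_cases h : i = n
  · subst h
    simp
  · simp [h]

theorem t_UNI : S_UNI := by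
  classical
  intro a
  let K : TopologicalSpace.PositiveCompacts (∀ n, Fin (a n + 1)) := ⊤
  have hμ1 : Measure.addHaarMeasure K Set.univ = 1 := by
    have h := Measure.addHaarMeasure_self (K₀ := K)
    exact h
  refine ⟨Measure.addHaarMeasure K, ⟨hμ1⟩, ?_⟩
  intro n c E hE h
  obtain ⟨μ, hμ⟩ : ∃ μ, μ = Measure.addHaarMeasure K := ⟨_, rfl⟩
  have hinv : μ.IsAddRightInvariant := by rw [hμ]; infer_instance
  rw [← hμ] at hμ1 ⊢
  obtain ⟨Ej, hEj⟩ : ∃ Ej : Fin (a n + 1) → Set (∀ n, Fin (a n + 1)), ∀ j, Ej j = (fun w => w + Pi.single n j) ⁻¹' E :=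
    ⟨_, fun _ => rfl⟩
  have hsh : ∀ j : Fin (a n + 1), μ (Ej j) = μ E := fun j => by
    rw [hEj]
    exact measure_preimage_add_right μ (Pi.single n j) E
  have hme : ∀ j : Fin (a n + 1), MeasurableSet (Ej j) := fun j => by
    rw [hEj]
    exact (measurable_id.add_const _) hE
  have hmem : ∀ (j : Fin (a n + 1)) (w : ∀ n, Fin (a n + 1)), w ∈ Ej j ↔ Function.update w n (w n + j) ∈ E := by
    intro j w
    rw [hEj, Set.mem_preimage, upd]
  clear hEj
  have hsum : ∑ j : Fin (a n + 1), μ (Ej j) =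
      ∫⁻ w, ∑ j : Fin (a n + 1), (Ej j).indicator (1 : (∀ n, Fin (a n + 1)) → ENNReal) w ∂μ := by
    rw [lintegral_finsetSum _ (fun j _ => measurable_one.indicator (hme j))]
    refine sum_congr rfl fun j _ => ?_
    rw [lintegral_indicator_one (hme j)]
  have hpt : ∀ w : ∀ n, Fin (a n + 1), ∑ j : Fin (a n + 1), (Ej j).indicator (1 : (∀ n, Fin (a n + 1)) → ENNReal) w ≤
      ENNReal.ofReal (c * (a n + 1)) := by
    intro w
    have e1 : ∑ j : Fin (a n + 1), (Ej j).indicator (1 : (∀ n, Fin (a n + 1)) → ENNReal) w =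
        ∑ j : Fin (a n + 1), (if Function.update w n (w n + j) ∈ E then (1 : ENNReal) else 0) := by
      refine sum_congr rfl fun j _ => ?_
      rw [Set.indicator_apply]
      simp only [hmem, Pi.one_apply]
    have e2 : ∑ j : Fin (a n + 1), (if Function.update w n (w n + j) ∈ E then (1 : ENNReal) else 0) =
        ∑ j : Fin (a n + 1), (if Function.update w n j ∈ E then (1 : ENNReal) else 0) :=
      Equiv.sum_comp (Equiv.addLeft (w n)) (fun j => if Function.update w n j ∈ E then (1 : ENNReal) else 0)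
    have e3 : ∑ j : Fin (a n + 1), (if Function.update w n j ∈ E then (1 : ENNReal) else 0) =
        ((Nat.card {j : Fin (a n + 1) // Function.update w n j ∈ E} : ℕ) : ENNReal) := by
      rw [Finset.sum_boole, Nat.card_eq_fintype_card, Fintype.card_subtype]
    rw [e1, e2, e3, ← ENNReal.ofReal_natCast]
    exact ENNReal.ofReal_le_ofReal (h w)
  have hint : ∑ j : Fin (a n + 1), μ (Ej j) ≤ ENNReal.ofReal (c * (a n + 1)) := by
    rw [hsum]
    refine (lintegral_mono hpt).trans ?_
    rw [lintegral_const, hμ1, mul_one]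
  have h1 : ((a n + 1 : ℕ) : ENNReal) * μ E ≤ ((a n + 1 : ℕ) : ENNReal) * ENNReal.ofReal c := by
    simp only [hsh] at hint
    rw [sum_const, card_univ, Fintype.card_fin, nsmul_eq_mul] at hint
    refine hint.trans (le_of_eq ?_)
    have e : (a n : ℝ) + 1 = ((a n + 1 : ℕ) : ℝ) := by push_cast; rfl
    rw [e, ENNReal.ofReal_mul' (Nat.cast_nonneg _), ENNReal.ofReal_natCast, mul_comm]
  have h0 : ((a n + 1 : ℕ) : ENNReal) ≠ 0 := Nat.cast_ne_zero.2 (Nat.succ_ne_zero (a n))
  exact (ENNReal.mul_le_mul_iff_right h0 (ENNReal.natCast_ne_top _)).1 h1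

end Pool.Agent.Y542.JB
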